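import Pool.Agent.Helper12.GM.Stmts

/-! # Module GAPB: exponential decay of the transition probabilities -/

set_option autoImplicit false

open scoped ENNReal

namespace Pool.Agent.Helper12.GM

/-- variance inequality -/
theorem gapb_var {ι : Type} (S : Finset ι) (m v : ι → ℝ) (hm : ∀ s ∈ S, 0 ≤ m s)
    (h1 : ∑ s ∈ S, m s = 1) (a b : ι) (ha : a ∈ S) (hb : b ∈ S) (hab : a ≠ b) :
    (∑ s ∈ S, m s * v s) ^ 2 ≤ ∑ s ∈ S, m s * v s ^ 2 - m a * m b * (v b - v a) ^ 2 := by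
  classical
  obtain ⟨c, hc⟩ : ∃ c, c = ∑ s ∈ S, m s * v s := ⟨_, rfl⟩
  rw [← hc]
  have e1 : ∑ s ∈ S, m s * (v s - c) ^ 2 = ∑ s ∈ S, m s * v s ^ 2 - c ^ 2 := by
    have : ∀ s ∈ S, m s * (v s - c) ^ 2 = m s * v s ^ 2 - 2 * c * (m s * v s) + c ^ 2 * m s := by
      intro s _; ring
    rw [Finset.sum_congr rfl this, Finset.sum_add_distrib, Finset.sum_sub_distrib,
      ← Finset.mul_sum, ← Finset.mul_sum, ← hc, h1]
    ring
  have hnn : ∀ s ∈ S, 0 ≤ m s * (v s - c) ^ 2 := fun s hs => mul_nonneg (hm s hs) (sq_nonneg _)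
  have hsub : ({a, b} : Finset ι) ⊆ S := by
    intro s hs
    rcases Finset.mem_insert.mp hs with rfl | hs
    · exact ha
    · rw [Finset.mem_singleton.mp hs]; exact hb
  have e2 : m a * (v a - c) ^ 2 + m b * (v b - c) ^ 2 ≤ ∑ s ∈ S, m s * (v s - c) ^ 2 := by
    have := Finset.sum_le_sum_of_subset_of_nonneg hsub (fun s hs _ => hnn s hs)
    rwa [Finset.sum_pair hab] at this
  have e3 : m a + m b ≤ 1 := by
    have := Finset.sum_le_sum_of_subset_of_nonneg (f := m) hsub (fun s hs _ => hm s hs)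
    rwa [Finset.sum_pair hab, h1] at this
  have hma := hm a ha
  have hmb := hm b hb
  have e4 : m a * m b * (v b - v a) ^ 2 ≤ m a * (v a - c) ^ 2 + m b * (v b - c) ^ 2 := by
    have f1 : (m a + m b) * (m a * (v a - c) ^ 2 + m b * (v b - c) ^ 2) ≤
        1 * (m a * (v a - c) ^ 2 + m b * (v b - c) ^ 2) := by
      apply mul_le_mul_of_nonneg_right e3
      positivity
    nlinarith [sq_nonneg (m a * (v a - c) + m b * (v b - c))]
  linarith

section
variable {Γ : Type} [Group Γ]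

/-- the `n`-step transition function as a finitely supported function -/
noncomputable def gapb_F (μ : PMF Γ) (S : Finset Γ) (y : Γ) : ℕ → Γ →₀ ℝ
  | 0 => Finsupp.single y 1
  | n + 1 => ∑ s ∈ S, (μ s).toReal • Finsupp.equivMapDomain (Equiv.mulRight s⁻¹) (gapb_F μ S y n)

theorem gapb_F_succ (μ : PMF Γ) (S : Finset Γ) (y : Γ) (n : ℕ) (x : Γ) :
    gapb_F μ S y (n + 1) x = ∑ s ∈ S, (μ s).toReal * gapb_F μ S y n (x * s) := by
  rw [gapb_F, Finsupp.finsetSum_apply]
  refine Finset.sum_congr rfl fun s _ => ?_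
  rw [Finsupp.smul_apply, Finsupp.equivMapDomain_apply, smul_eq_mul]
  congr 2
  simp [Equiv.mulRight]

theorem gapb_F_nonneg (μ : PMF Γ) (S : Finset Γ) (y : Γ) (n : ℕ) (x : Γ) :
    0 ≤ gapb_F μ S y n x := by
  classical
  induction n generalizing x with
  | zero =>
    rw [gapb_F, Finsupp.single_apply]
    split_ifs <;> norm_num
  | succ n ih =>
    rw [gapb_F_succ]
    exact Finset.sum_nonneg fun s _ => mul_nonneg ENNReal.toReal_nonneg (ih _)

theorem gapb_pw (μ : PMF Γ) (S : Finset Γ) (hS : ∀ s, s ∉ S → μ s = 0) (y : Γ) (n : ℕ) (x : Γ) :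
    pw μ Set.univ n x y = ENNReal.ofReal (gapb_F μ S y n x) := by
  classical
  induction n generalizing x with
  | zero =>
    rw [gapb_F, Finsupp.single_apply, pw]
    by_cases h : x = y
    · rw [if_pos h, if_pos h.symm, ENNReal.ofReal_one]
    · rw [if_neg h, if_neg (fun e => h e.symm), ENNReal.ofReal_zero]
  | succ n ih =>
    rw [gapb_F_succ, pw, if_pos (Set.mem_univ x),
      ENNReal.ofReal_sum_of_nonneg (fun s _ => mul_nonneg ENNReal.toReal_nonneg
        (gapb_F_nonneg μ S y n _)),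
      tsum_eq_sum (s := S) (fun s hs => by rw [hS s hs, zero_mul])]
    refine Finset.sum_congr rfl fun s _ => ?_
    rw [ih, ENNReal.ofReal_mul ENNReal.toReal_nonneg, ENNReal.ofReal_toReal (μ.apply_ne_top s)]

theorem gapb_sum_shift (f : Γ →₀ ℝ) (s : Γ) : ∑' x, (f (x * s)) ^ 2 = ∑' x, (f x) ^ 2 :=
  (Equiv.mulRight s).tsum_eq (fun x => (f x) ^ 2)

theorem gapb_summable (f : Γ →₀ ℝ) (s : Γ) : Summable fun x => (f (x * s)) ^ 2 := by
  have h : Summable fun x => (f x) ^ 2 := by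
    apply summable_of_hasFiniteSupport
    refine f.support.finite_toSet.subset ?_
    intro x hx
    rw [Finset.mem_coe, Finsupp.mem_support_iff]
    intro h0
    apply hx
    change (f x) ^ 2 = 0
    rw [h0]; norm_num
  exact (Equiv.mulRight s).summable_iff.mpr h

theorem gapb_summable2 (f : Γ →₀ ℝ) (s : Γ) : Summable fun x => (f (x * s) - f x) ^ 2 := by
  have h1 := gapb_summable f s
  have h2 := gapb_summable f 1
  simp only [mul_one] at h2
  refine Summable.of_nonneg_of_le (fun x => sq_nonneg _) (fun x => ?_) ((h1.add h2).mul_left 2)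
  nlinarith [sq_nonneg (f (x * s) + f x)]

theorem gapb_step (μ : PMF Γ) (S : Finset Γ) (hS : ∀ s, s ∉ S → μ s = 0) (h1 : μ 1 ≠ 0)
    (T : Finset Γ) (hT : ∀ s ∈ T, μ s ≠ 0) (ε : ℝ) (hK : Kaz T ε) (b : ℝ) (hb0 : 0 < b)
    (hb : ∀ s ∈ T, b ≤ (μ s).toReal) (y : Γ) (n : ℕ) :
    ∑' x, (gapb_F μ S y (n + 1) x) ^ 2 ≤
      Real.exp (-((μ 1).toReal * b * ε)) * ∑' x, (gapb_F μ S y n x) ^ 2 := by
  classical
  obtain ⟨f, hf⟩ : ∃ f, f = gapb_F μ S y n := ⟨_, rfl⟩
  obtain ⟨a, ha⟩ : ∃ a, a = (μ 1).toReal := ⟨_, rfl⟩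
  have ha0 : 0 < a := by
    rw [ha]; exact ENNReal.toReal_pos h1 (μ.apply_ne_top 1)
  have hmem : ∀ s, μ s ≠ 0 → s ∈ S := fun s hs => by
    by_contra h; exact hs (hS s h)
  have hsum1 : ∑ s ∈ S, (μ s).toReal = 1 := by
    have e : ∑' s, μ s = ∑ s ∈ S, μ s := tsum_eq_sum (fun s hs => hS s hs)
    rw [← ENNReal.toReal_sum (fun s _ => μ.apply_ne_top s), ← e, μ.tsum_coe, ENNReal.toReal_one]
  obtain ⟨s₀, hs₀, hineq⟩ := hK.2 f
  have hN0 : 0 ≤ ∑' x, (f x) ^ 2 := tsum_nonneg fun x => sq_nonneg _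
  have hsq : ∀ s, Summable fun x => (μ s).toReal * (f (x * s)) ^ 2 := fun s =>
    (gapb_summable f s).mul_left _
  have htot : ∑' x, ∑ s ∈ S, (μ s).toReal * (f (x * s)) ^ 2 = ∑' x, (f x) ^ 2 := by
    rw [Summable.tsum_finsetSum (fun s _ => hsq s)]
    have : ∀ s ∈ S, ∑' x, (μ s).toReal * (f (x * s)) ^ 2 = (μ s).toReal * ∑' x, (f x) ^ 2 := by
      intro s _
      rw [tsum_mul_left, gapb_sum_shift]
    rw [Finset.sum_congr rfl this, ← Finset.sum_mul, hsum1, one_mul]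
  have hS1 : Summable fun x => ∑ s ∈ S, (μ s).toReal * (f (x * s)) ^ 2 :=
    summable_sum fun s _ => hsq s
  have hFs : Summable fun x => (gapb_F μ S y (n + 1) x) ^ 2 := by
    have := gapb_summable (gapb_F μ S y (n + 1)) 1
    simpa only [mul_one] using this
  have hFx : ∀ x, gapb_F μ S y (n + 1) x = ∑ s ∈ S, (μ s).toReal * f (x * s) := by
    intro x
    rw [gapb_F_succ, hf]
  rw [← hf, ← ha]
  by_cases hs1 : s₀ = 1
  · -- then `f = 0`
    subst hs1
    simp only [mul_one, sub_self] at hineq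
    have hz : ∑' x : Γ, (0 : ℝ) ^ 2 = 0 := by simp
    rw [hz] at hineq
    have hN : ∑' x, (f x) ^ 2 = 0 := by
      have := hK.1
      nlinarith
    rw [hN, mul_zero]
    have hf2 : Summable fun x => (f x) ^ 2 := by
      have := gapb_summable f 1
      simpa only [mul_one] using this
    have hfx : ∀ x, f x = 0 := by
      intro x
      have h1 : (f x) ^ 2 ≤ 0 := (hf2.le_tsum x (fun _ _ => sq_nonneg _)).trans hN.le
      exact pow_eq_zero_iff (two_ne_zero) |>.mp (le_antisymm h1 (sq_nonneg _))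
    have : ∀ x, (gapb_F μ S y (n + 1) x) ^ 2 = 0 := by
      intro x
      rw [hFx, Finset.sum_eq_zero (fun s _ => by rw [hfx, mul_zero])]
      norm_num
    rw [tsum_congr this, tsum_zero]
  · have hpt : ∀ x, (gapb_F μ S y (n + 1) x) ^ 2 ≤
        ∑ s ∈ S, (μ s).toReal * (f (x * s)) ^ 2 - a * b * (f (x * s₀) - f x) ^ 2 := by
      intro x
      rw [hFx]
      have h := gapb_var S (fun s => (μ s).toReal) (fun s => f (x * s))
        (fun s _ => ENNReal.toReal_nonneg) hsum1 1 s₀ (hmem 1 h1) (hmem s₀ (hT s₀ hs₀))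
        (fun e => hs1 e.symm)
      simp only [mul_one] at h
      rw [← ha] at h
      have h2 := hb s₀ hs₀
      have h3 : a * b * (f (x * s₀) - f x) ^ 2 ≤ a * (μ s₀).toReal * (f (x * s₀) - f x) ^ 2 := by
        apply mul_le_mul_of_nonneg_right _ (sq_nonneg _)
        exact mul_le_mul_of_nonneg_left h2 ha0.le
      linarith
    have hD := (gapb_summable2 f s₀).mul_left (a * b)
    have h4 := hFs.tsum_le_tsum hpt (hS1.sub hD)
    rw [hS1.tsum_sub hD, htot, tsum_mul_left] at h4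
    have h5 : a * b * (ε * ∑' x, (f x) ^ 2) ≤ a * b * ∑' x, (f (x * s₀) - f x) ^ 2 :=
      mul_le_mul_of_nonneg_left hineq (by positivity)
    have h6 : 1 - a * b * ε ≤ Real.exp (-(a * b * ε)) := by
      have := Real.add_one_le_exp (-(a * b * ε))
      linarith
    have h7 := mul_le_mul_of_nonneg_right h6 hN0
    nlinarith

theorem st_GAPB : ST_GAPB := by
  classical
  intro Γ _ μ hA h1 T ε hT hK
  obtain ⟨S, hS⟩ : ∃ S : Finset Γ, ∀ s, s ∉ S → μ s = 0 := by
    refine ⟨hA.fin.toFinset, fun s hs => ?_⟩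
    by_contra h
    exact hs (hA.fin.mem_toFinset.mpr ((PMF.mem_support_iff μ s).mpr h))
  have hT' : ∀ s ∈ T, μ s ≠ 0 := fun s hs => (PMF.mem_support_iff μ s).mp (hT hs)
  obtain ⟨s₁, hs₁, -⟩ := hK.2 0
  obtain ⟨s₂, hs₂, hmin⟩ := T.exists_min_image (fun s => (μ s).toReal) ⟨s₁, hs₁⟩
  obtain ⟨b, hb⟩ : ∃ b, b = (μ s₂).toReal := ⟨_, rfl⟩
  have hb0 : 0 < b := by rw [hb]; exact ENNReal.toReal_pos (hT' s₂ hs₂) (μ.apply_ne_top s₂)
  have ha0 : 0 < (μ 1).toReal := ENNReal.toReal_pos h1 (μ.apply_ne_top 1)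
  obtain ⟨δ, hδ⟩ : ∃ δ, δ = (μ 1).toReal * b * ε := ⟨_, rfl⟩
  have hδ0 : 0 < δ := by rw [hδ]; exact mul_pos (mul_pos ha0 hb0) hK.1
  have hnorm : ∀ (y : Γ) (n : ℕ), ∑' x, (gapb_F μ S y n x) ^ 2 ≤ Real.exp (-(δ * n)) := by
    intro y n
    induction n with
    | zero =>
      have : ∑' x, (gapb_F μ S y 0 x) ^ 2 = 1 := by
        rw [tsum_eq_single y]
        · rw [gapb_F, Finsupp.single_eq_same]; norm_num
        · intro x hx
          rw [gapb_F, Finsupp.single_apply, if_neg (fun e => hx e.symm)]; norm_num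
      rw [this]; simp
    | succ n ih =>
      have h := gapb_step μ S hS h1 T hT' ε hK b hb0 (fun s hs => by rw [hb]; exact hmin s hs) y n
      rw [← hδ] at h
      refine h.trans ((mul_le_mul_of_nonneg_left ih (Real.exp_pos _).le).trans (le_of_eq ?_))
      rw [← Real.exp_add]
      congr 1
      push_cast
      ring
  refine ⟨max 1 (2 / δ), le_max_left _ _, fun n x y => ?_⟩
  rw [gapb_pw μ S hS]
  apply ENNReal.ofReal_le_ofReal
  have hF0 := gapb_F_nonneg μ S y n x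
  have hsm : Summable fun x => (gapb_F μ S y n x) ^ 2 := by
    have := gapb_summable (gapb_F μ S y n) 1
    simpa only [mul_one] using this
  have h2 : (gapb_F μ S y n x) ^ 2 ≤ Real.exp (-(δ * n)) :=
    (hsm.le_tsum x (fun _ _ => sq_nonneg _)).trans (hnorm y n)
  have h3 : (gapb_F μ S y n x) ≤ Real.exp (-(δ * n) / 2) := by
    have e : Real.exp (-(δ * n)) = Real.exp (-(δ * n) / 2) ^ 2 := by
      rw [← Real.exp_nat_mul]; congr 1; push_cast; ring
    rw [e] at h2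
    exact (pow_le_pow_iff_left₀ hF0 (Real.exp_pos _).le (by norm_num)).mp h2
  refine h3.trans (Real.exp_le_exp.mpr ?_)
  have hK0 : (0 : ℝ) < max 1 (2 / δ) := lt_max_of_lt_left one_pos
  rw [le_div_iff₀ hK0]
  have h4 : 2 / δ ≤ max 1 (2 / δ) := le_max_right _ _
  have h5 : 2 ≤ δ * max 1 (2 / δ) := by
    rw [div_le_iff₀ hδ0] at h4
    linarith
  have hn : (0 : ℝ) ≤ n := Nat.cast_nonneg n
  nlinarith

end

end Pool.Agent.Helper12.GM
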